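import Mathlib

/-!
The Fejér kernel used in the proof of the Wiener-Ikehara theorem.
-/

namespace Pool.Agent.Work.PNT70

open Filter Topology MeasureTheory Set Complex

/-- triangle function -/
noncomputable def tri (y : ℝ) : ℝ := max (1 - |y|) 0

lemma tri_continuous : Continuous tri := by
  unfold tri
  fun_prop

lemma tri_nonneg (y : ℝ) : 0 ≤ tri y := le_max_right _ _

lemma tri_le_one (y : ℝ) : tri y ≤ 1 := by
  unfold tri
  apply max_le _ zero_le_one
  linarith [abs_nonneg y]

lemma tri_eq_zero {y : ℝ} (hy : y ∉ Icc (-1 : ℝ) 1) : tri y = 0 := by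
  unfold tri
  apply max_eq_right
  rw [mem_Icc, not_and_or, not_le, not_le] at hy
  rcases hy with h | h
  · rw [abs_of_neg (by linarith)]
    linarith
  · rw [abs_of_pos (by linarith)]
    linarith

lemma tri_support : HasCompactSupport tri :=
  HasCompactSupport.intro isCompact_Icc fun _ hx => tri_eq_zero hx

/-- Fejér kernel -/
noncomputable def Kf (v : ℝ) : ℝ := if v = 0 then 1 else 2 * (1 - Real.cos v) / v ^ 2

lemma Kf_nonneg (v : ℝ) : 0 ≤ Kf v := by
  unfold Kf
  split_ifs
  · norm_num
  · have := Real.cos_le_one v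
    apply div_nonneg _ (sq_nonneg v)
    linarith

lemma Kf_le_one (v : ℝ) : Kf v ≤ 1 := by
  unfold Kf
  split_ifs with h
  · norm_num
  · rw [div_le_one (by positivity)]
    have := Real.one_sub_sq_div_two_le_cos (x := v)
    linarith

lemma Kf_le (v : ℝ) : Kf v ≤ 8 * (1 + v ^ 2)⁻¹ := by
  have hp : 0 < 1 + v ^ 2 := by positivity
  by_cases h : |v| ≤ 1
  · have h2 : v ^ 2 ≤ 1 := by
      rw [← sq_abs]
      exact pow_le_one₀ (abs_nonneg v) h
    refine le_trans (Kf_le_one v) ?_
    rw [← div_eq_mul_inv, le_div_iff₀ hp]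
    linarith
  · have h2 : 1 ≤ v ^ 2 := by
      rw [← sq_abs]
      have : 1 ≤ |v| := by linarith [not_le.mp h]
      exact one_le_pow₀ this
    have hv : v ≠ 0 := by
      intro h0
      rw [h0] at h2
      norm_num at h2
    unfold Kf
    rw [if_neg hv, ← div_eq_mul_inv, div_le_div_iff₀ (by positivity) hp]
    have := Real.neg_one_le_cos v
    nlinarith

lemma Kf_meas : Measurable Kf := by
  unfold Kf
  apply Measurable.ite (measurableSet_singleton 0) measurable_const
  fun_prop

lemma Kf_integrable : Integrable Kf := by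
  apply Integrable.mono' (integrable_inv_one_add_sq.const_mul 8) Kf_meas.aestronglyMeasurable
  filter_upwards with v
  rw [Real.norm_of_nonneg (Kf_nonneg v)]
  exact Kf_le v

/-- total mass -/
noncomputable def κ₀ : ℝ := ∫ v, Kf v

lemma κ₀_pos : 0 < κ₀ := by
  unfold κ₀
  rw [integral_pos_iff_support_of_nonneg Kf_nonneg Kf_integrable]
  have h : Ioo (0 : ℝ) 1 ⊆ Function.support Kf := by
    intro v hv
    have hv0 : v ≠ 0 := hv.1.ne'
    have h1 : Real.cos v < 1 := by
      rw [← Real.cos_zero]
      exact Real.cos_lt_cos_of_nonneg_of_le_pi (le_refl _) (by linarith [hv.2, Real.pi_gt_three]) hv.1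
    have : 0 < Kf v := by
      unfold Kf
      rw [if_neg hv0]
      have : 0 < v ^ 2 := by positivity
      apply div_pos _ this
      linarith
    exact this.ne'
  refine lt_of_lt_of_le ?_ (measure_mono h)
  rw [Real.volume_Ioo]
  norm_num

lemma tri_fourier (v : ℝ) : ∫ y : ℝ, (tri y : ℂ) * cexp (I * y * v) = (Kf v : ℂ) := by
  have h0 : ∫ y : ℝ, (tri y : ℂ) * cexp (I * y * v) = ∫ y in Icc (-1 : ℝ) 1, (tri y : ℂ) * cexp (I * y * v) := by
    rw [setIntegral_eq_integral_of_forall_compl_eq_zero]
    intro y hy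
    rw [tri_eq_zero hy]
    simp
  have hc : Continuous (fun y : ℝ => (tri y : ℂ) * cexp (I * y * v)) := by
    have := tri_continuous
    fun_prop
  rw [h0, integral_Icc_eq_integral_Ioc, ← intervalIntegral.integral_of_le (by norm_num),
    ← intervalIntegral.integral_add_adjacent_intervals (b := (0 : ℝ)) (hc.intervalIntegrable _ _)
      (hc.intervalIntegrable _ _)]
  have e1 : ∫ y in (-1 : ℝ)..0, (tri y : ℂ) * cexp (I * y * v)
      = ∫ y in (-1 : ℝ)..0, (1 + y : ℂ) * cexp (I * v * y) := by
    apply intervalIntegral.integral_congr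
    intro y hy
    rw [uIcc_of_le (by norm_num)] at hy
    have : tri y = 1 + y := by
      unfold tri
      rw [abs_of_nonpos hy.2, max_eq_left (by linarith [hy.1])]
      ring
    simp only [this]
    push_cast
    congr 2
    ring
  have e2 : ∫ y in (0 : ℝ)..1, (tri y : ℂ) * cexp (I * y * v)
      = ∫ y in (0 : ℝ)..1, (1 - y : ℂ) * cexp (I * v * y) := by
    apply intervalIntegral.integral_congr
    intro y hy
    rw [uIcc_of_le (by norm_num)] at hy
    have : tri y = 1 - y := by
      unfold tri
      rw [abs_of_nonneg hy.1, max_eq_left (by linarith [hy.2])]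
    simp only [this]
    push_cast
    congr 2
    ring
  rw [e1, e2]
  by_cases hv : v = 0
  · subst hv
    simp only [ofReal_zero, mul_zero, zero_mul, Complex.exp_zero, mul_one]
    have f1 : ∀ y ∈ uIcc (-1 : ℝ) 0, HasDerivAt (fun y : ℝ => ((y : ℂ) + y ^ 2 / 2)) (1 + y : ℂ) y := by
      intro y _
      have h1 : HasDerivAt (fun y : ℝ => (y : ℂ)) 1 y := Complex.ofRealCLM.hasDerivAt
      have h2 := h1.add ((h1.pow 2).div_const 2)
      refine h2.congr_deriv ?_
      push_cast
      ring
    have f2 : ∀ y ∈ uIcc (0 : ℝ) 1, HasDerivAt (fun y : ℝ => ((y : ℂ) - y ^ 2 / 2)) (1 - y : ℂ) y := by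
      intro y _
      have h1 : HasDerivAt (fun y : ℝ => (y : ℂ)) 1 y := Complex.ofRealCLM.hasDerivAt
      have h2 := h1.sub ((h1.pow 2).div_const 2)
      refine h2.congr_deriv ?_
      push_cast
      ring
    rw [intervalIntegral.integral_eq_sub_of_hasDerivAt f1 (by
      apply Continuous.intervalIntegrable; fun_prop),
      intervalIntegral.integral_eq_sub_of_hasDerivAt f2 (by
      apply Continuous.intervalIntegrable; fun_prop)]
    unfold Kf
    rw [if_pos rfl]
    push_cast
    norm_num
  · set c : ℂ := I * v with hc'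
    have hvC : (v : ℂ) ≠ 0 := by exact_mod_cast hv
    have hc0 : c ≠ 0 := mul_ne_zero I_ne_zero hvC
    have hexp : ∀ y : ℝ, HasDerivAt (fun y : ℝ => cexp (c * y)) (c * cexp (c * y)) y := by
      intro y
      have h1 : HasDerivAt (fun y : ℝ => c * (y : ℂ)) (c * 1) y :=
        (Complex.ofRealCLM.hasDerivAt (x := y)).const_mul c
      have h2 := h1.cexp
      convert h2 using 1
      ring
    have hid : ∀ y : ℝ, HasDerivAt (fun y : ℝ => (y : ℂ)) 1 y := fun y => Complex.ofRealCLM.hasDerivAt
    have f1 : ∀ y ∈ uIcc (-1 : ℝ) 0, HasDerivAt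
        (fun y : ℝ => ((1 + (y : ℂ)) / c - 1 / c ^ 2) * cexp (c * y)) ((1 + y : ℂ) * cexp (c * y)) y := by
      intro y _
      have h1 := ((((hid y).const_add 1).div_const c).sub_const (1 / c ^ 2)).mul (hexp y)
      refine h1.congr_deriv ?_
      field_simp
      ring
    have f2 : ∀ y ∈ uIcc (0 : ℝ) 1, HasDerivAt
        (fun y : ℝ => ((1 - (y : ℂ)) / c + 1 / c ^ 2) * cexp (c * y)) ((1 - y : ℂ) * cexp (c * y)) y := by
      intro y _
      have h1 := ((((hid y).const_sub 1).div_const c).add_const (1 / c ^ 2)).mul (hexp y)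
      refine h1.congr_deriv ?_
      field_simp
      ring
    rw [intervalIntegral.integral_eq_sub_of_hasDerivAt f1 (by
      apply Continuous.intervalIntegrable; fun_prop),
      intervalIntegral.integral_eq_sub_of_hasDerivAt f2 (by
      apply Continuous.intervalIntegrable; fun_prop)]
    unfold Kf
    rw [if_neg hv]
    push_cast
    have hcos : 2 * Complex.cos v = cexp (c * 1) + cexp (c * (-1)) := by
      rw [Complex.cos, hc']
      have a1 : (v : ℂ) * I = I * v * 1 := by ring
      have a2 : -(v : ℂ) * I = I * v * (-1) := by ring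
      rw [a1, a2]
      ring
    have hc2 : c ^ 2 = -(v : ℂ) ^ 2 := by
      rw [hc', mul_pow, I_sq]
      ring
    simp only [mul_zero, Complex.exp_zero]
    have : 2 * (1 - Complex.cos v) / (v : ℂ) ^ 2 = (cexp (c * 1) + cexp (c * (-1)) - 2) / c ^ 2 := by
      rw [hc2, ← hcos]
      field_simp
      ring
    rw [this]
    field_simp
    ring

end Pool.Agent.Work.PNT70
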