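import Mathlib
import Pool.Agent.Work.PNT70.Kernel

/-!
Wiener-Ikehara theorem, part 1: the key identity.
-/

namespace Pool.Agent.Work.PNT70

open Filter Topology MeasureTheory Set Complex

/-- summatory function -/
noncomputable def summ (f : ℕ → ℝ) (x : ℝ) : ℝ := ∑ k ∈ Finset.Icc 1 ⌊x⌋₊, f k

/-- normalised summatory function in logarithmic coordinates -/
noncomputable def HH (f : ℕ → ℝ) (u : ℝ) : ℝ := summ f (Real.exp u) * Real.exp (-u)

section basic

variable {f : ℕ → ℝ} (hf : ∀ n, 0 ≤ f n)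

include hf

lemma summ_nonneg (x : ℝ) : 0 ≤ summ f x := Finset.sum_nonneg fun n _ => hf n

lemma summ_mono {x y : ℝ} (h : x ≤ y) : summ f x ≤ summ f y := by
  apply Finset.sum_le_sum_of_subset_of_nonneg
  · exact Finset.Icc_subset_Icc_right (Nat.floor_mono h)
  · intro n _ _
    exact hf n

lemma HH_nonneg (u : ℝ) : 0 ≤ HH f u := mul_nonneg (summ_nonneg hf _) (Real.exp_pos _).le

omit hf in
lemma HH_neg {u : ℝ} (hu : u < 0) : HH f u = 0 := by
  unfold HH summ
  have : ⌊Real.exp u⌋₊ = 0 := by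
    rw [Nat.floor_eq_zero]
    have := Real.exp_lt_exp.mpr hu
    rwa [Real.exp_zero] at this
  rw [this]
  simp

lemma HH_comp {u t : ℝ} (h : u ≤ t) : HH f u ≤ HH f t * Real.exp (t - u) := by
  unfold HH
  rw [mul_assoc, ← Real.exp_add]
  have : -t + (t - u) = -u := by ring
  rw [this]
  exact mul_le_mul_of_nonneg_right (summ_mono hf (Real.exp_le_exp.mpr h)) (Real.exp_pos _).le

omit hf in
lemma HH_meas : Measurable (HH f) := by
  have h1 : Measurable (summ f) := by
    unfold summ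
    exact (measurable_from_top (f := fun n : ℕ => ∑ k ∈ Finset.Icc 1 n, f k)).comp Nat.measurable_floor
  unfold HH
  exact (h1.comp Real.measurable_exp).mul (Real.measurable_exp.comp measurable_neg)

variable {C : ℝ} (hC : ∀ n : ℕ, ∑ k ∈ Finset.Icc 1 n, f k ≤ C * n)

include hC

lemma C_nonneg : 0 ≤ C := by
  have h1 := hC 1
  simp at h1
  exact le_trans (hf 1) h1

lemma HH_le (u : ℝ) : HH f u ≤ C := by
  have hC0 := C_nonneg hf hC
  unfold HH
  have h1 : summ f (Real.exp u) ≤ C * Real.exp u := by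
    refine le_trans (hC _) ?_
    exact mul_le_mul_of_nonneg_left (Nat.floor_le (Real.exp_pos u).le) hC0
  calc summ f (Real.exp u) * Real.exp (-u) ≤ C * Real.exp u * Real.exp (-u) :=
        mul_le_mul_of_nonneg_right h1 (Real.exp_pos _).le
    _ = C := by
        rw [mul_assoc, ← Real.exp_add]
        simp

end basic

lemma exp_image : Real.exp '' Ioi 0 = Ioi 1 := by
  ext x
  constructor
  · rintro ⟨u, hu, rfl⟩
    exact Real.one_lt_exp_iff.mpr hu
  · intro hx
    have hx1 : (1 : ℝ) < x := hx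
    exact ⟨Real.log x, Real.log_pos hx1, Real.exp_log (by linarith)⟩

lemma laplace {f : ℕ → ℝ} (hf : ∀ n, 0 ≤ f n) {C : ℝ}
    (hC : ∀ n : ℕ, ∑ k ∈ Finset.Icc 1 n, f k ≤ C * n) {s : ℂ} (hs : 1 < s.re) :
    LSeries (fun n => (f n : ℂ)) s = s * ∫ u in Ioi (0 : ℝ), (HH f u : ℂ) * cexp (-(s - 1) * u) := by
  have hC0 := C_nonneg hf hC
  rw [LSeries_eq_mul_integral_of_nonneg f zero_le_one hs _ hf]
  · congr 1
    rw [← exp_image, integral_image_eq_integral_abs_deriv_smul measurableSet_Ioi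
      (fun x _ => (Real.hasDerivAt_exp x).hasDerivWithinAt) Real.exp_injective.injOn]
    apply setIntegral_congr_fun measurableSet_Ioi
    intro u _
    simp only
    rw [abs_of_pos (Real.exp_pos u)]
    have h1 : ((Real.exp u : ℝ) : ℂ) ^ (-(s + 1)) = cexp (u * (-(s + 1))) := by
      rw [Complex.cpow_def_of_ne_zero (by exact_mod_cast (Real.exp_pos u).ne'),
        ← Complex.ofReal_log (Real.exp_pos u).le, Real.log_exp]
    rw [h1]
    unfold HH summ
    push_cast
    rw [real_smul, ← mul_assoc, mul_comm (((Real.exp u : ℝ)) : ℂ), mul_assoc, mul_assoc]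
    congr 1
    rw [Complex.ofReal_exp, ← Complex.exp_add, ← Complex.exp_add]
    congr 1
    ring
  · apply Asymptotics.IsBigO.of_bound C
    filter_upwards with n
    rw [Real.norm_of_nonneg (Finset.sum_nonneg fun k _ => hf k), Real.rpow_one,
      Real.norm_of_nonneg (Nat.cast_nonneg n)]
    exact hC n

lemma laplace2 {f : ℕ → ℝ} (hf : ∀ n, 0 ≤ f n) {C : ℝ}
    (hC : ∀ n : ℕ, ∑ k ∈ Finset.Icc 1 n, f k ≤ C * n) {A : ℝ} {G : ℂ → ℂ}
    (hG : ∀ s : ℂ, 1 < s.re → G s = LSeries (fun n => (f n : ℂ)) s - A / (s - 1)) {s : ℂ}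
    (hs : 1 < s.re) :
    ∫ u in Ioi (0 : ℝ), ((HH f u - A : ℝ) : ℂ) * cexp (-(s - 1) * u) = (G s - A) / s := by
  have hs0 : s ≠ 0 := by
    intro h
    rw [h] at hs
    simp at hs
    linarith
  have hs1 : s - 1 ≠ 0 := by
    intro h
    have : s = 1 := by linear_combination h
    rw [this] at hs
    simp at hs
  have hre : (-(s - 1)).re < 0 := by
    simp
    linarith
  have hi1 : IntegrableOn (fun u : ℝ => cexp (-(s - 1) * u)) (Ioi 0) :=
    integrableOn_exp_mul_complex_Ioi hre 0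
  have hi2 : IntegrableOn (fun u : ℝ => (HH f u : ℂ) * cexp (-(s - 1) * u)) (Ioi 0) := by
    apply Integrable.bdd_mul (c := C) hi1
    · exact (measurable_ofReal.comp HH_meas).aestronglyMeasurable
    · filter_upwards with u
      rw [norm_real, Real.norm_of_nonneg (HH_nonneg hf u)]
      exact HH_le hf hC u
  have e1 : (fun u : ℝ => ((HH f u - A : ℝ) : ℂ) * cexp (-(s - 1) * u))
      = fun u : ℝ => (HH f u : ℂ) * cexp (-(s - 1) * u) - A * cexp (-(s - 1) * u) := by
    funext u
    push_cast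
    ring
  rw [e1, integral_sub hi2 (hi1.const_mul _), integral_const_mul, integral_exp_mul_complex_Ioi hre 0]
  have h2 := laplace hf hC hs
  have h3 : ∫ u in Ioi (0 : ℝ), (HH f u : ℂ) * cexp (-(s - 1) * u) = LSeries (fun n => (f n : ℂ)) s / s := by
    rw [h2]
    field_simp
  rw [h3, hG s hs]
  simp only [ofReal_zero, mul_zero, Complex.exp_zero]
  field_simp
  ring

end Pool.Agent.Work.PNT70
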