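import Mathlib
import Pool.Agent.Work.PNT70.WI1

/-!
Wiener-Ikehara theorem, part 2: passing to the boundary.
-/

namespace Pool.Agent.Work.PNT70

open Filter Topology MeasureTheory Set Complex

section main

variable {f : ℕ → ℝ} (hf : ∀ n, 0 ≤ f n) {C : ℝ}
    (hC : ∀ n : ℕ, ∑ k ∈ Finset.Icc 1 n, f k ≤ C * n) {A : ℝ} {G : ℂ → ℂ}
    (hG : ∀ s : ℂ, 1 < s.re → G s = LSeries (fun n => (f n : ℂ)) s - A / (s - 1))
    (hGc : ContinuousOn G {s | 1 ≤ s.re})

include hf hC hG

lemma identity_delta {l t δ : ℝ} (hδ : 0 < δ) :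
    ∫ y : ℝ, (tri y : ℂ) * cexp (I * y * (l * t : ℝ)) * ((G (1 + δ + I * l * y) - A) / (1 + δ + I * l * y))
      = ∫ u in Ioi (0 : ℝ), (((HH f u - A) * Real.exp (-δ * u) * Kf (l * (t - u)) : ℝ) : ℂ) := by
  have hC0 := C_nonneg hf hC
  have hre : ∀ y : ℝ, 1 < (1 + δ + I * l * y : ℂ).re := by
    intro y
    simp
    exact hδ
  have h1 : ∀ y : ℝ, (G (1 + δ + I * l * y) - A) / (1 + δ + I * l * y)
      = ∫ u in Ioi (0 : ℝ), ((HH f u - A : ℝ) : ℂ) * cexp (-(δ + I * l * y) * u) := by
    intro y
    rw [← laplace2 hf hC hG (hre y)]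
    congr 1
    funext u
    congr 3
    ring
  simp_rw [h1]
  have h2 : ∀ y : ℝ, (tri y : ℂ) * cexp (I * y * (l * t : ℝ)) *
      (∫ u in Ioi (0 : ℝ), ((HH f u - A : ℝ) : ℂ) * cexp (-(δ + I * l * y) * u))
      = ∫ u in Ioi (0 : ℝ), (tri y : ℂ) * cexp (I * y * (l * t : ℝ)) *
        (((HH f u - A : ℝ) : ℂ) * cexp (-(δ + I * l * y) * u)) := by
    intro y
    rw [integral_const_mul]
  simp_rw [h2]
  rw [integral_integral_swap]
  · apply setIntegral_congr_fun measurableSet_Ioi
    intro u _
    simp only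
    have h3 : ∀ y : ℝ, (tri y : ℂ) * cexp (I * y * (l * t : ℝ)) *
        (((HH f u - A : ℝ) : ℂ) * cexp (-(δ + I * l * y) * u))
        = ((HH f u - A : ℝ) : ℂ) * (Real.exp (-δ * u) : ℂ) * ((tri y : ℂ) * cexp (I * y * (l * (t - u) : ℝ))) := by
      intro y
      have : cexp (I * y * (l * t : ℝ)) * cexp (-(δ + I * l * y) * u)
          = (Real.exp (-δ * u) : ℂ) * cexp (I * y * (l * (t - u) : ℝ)) := by
        rw [Complex.ofReal_exp, ← Complex.exp_add, ← Complex.exp_add]
        congr 1
        push_cast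
        ring
      calc (tri y : ℂ) * cexp (I * y * (l * t : ℝ)) *
        (((HH f u - A : ℝ) : ℂ) * cexp (-(δ + I * l * y) * u))
          = (tri y : ℂ) * ((HH f u - A : ℝ) : ℂ) * (cexp (I * y * (l * t : ℝ)) * cexp (-(δ + I * l * y) * u)) := by ring
        _ = _ := by rw [this]; ring
    simp_rw [h3]
    rw [integral_const_mul, tri_fourier]
    push_cast
    ring
  · have hb1 : Integrable (fun y : ℝ => tri y) := tri_continuous.integrable_of_hasCompactSupport tri_support
    have hb2 : Integrable (fun u : ℝ => (C + |A|) * Real.exp (-δ * u)) (volume.restrict (Ioi 0)) := by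
      have := (integrableOn_exp_mul_Ioi (a := -δ) (by linarith) 0).const_mul (C + |A|)
      exact this
    have hb := hb1.mul_prod hb2
    apply Integrable.mono' hb
    · apply Measurable.aestronglyMeasurable
      have m1 : Measurable (fun z : ℝ × ℝ => ((HH f z.2 - A : ℝ) : ℂ)) :=
        measurable_ofReal.comp ((HH_meas.comp measurable_snd).sub_const A)
      have m2 : Measurable (fun z : ℝ × ℝ => (tri z.1 : ℂ)) :=
        measurable_ofReal.comp (tri_continuous.measurable.comp measurable_fst)
      have m3 : Measurable (fun z : ℝ × ℝ => cexp (I * z.1 * (l * t : ℝ))) := by fun_prop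
      have m4 : Measurable (fun z : ℝ × ℝ => cexp (-(δ + I * l * z.1) * z.2)) := by fun_prop
      exact (m2.mul m3).mul (m1.mul m4)
    · filter_upwards with z
      simp only [Function.uncurry]
      rw [norm_mul, norm_mul, norm_mul, norm_real, norm_real, Real.norm_of_nonneg (tri_nonneg _)]
      have e1 : ‖cexp (I * z.1 * (l * t : ℝ))‖ = 1 := by
        rw [Complex.norm_exp]
        simp
      have e2 : ‖cexp (-(δ + I * l * z.1) * z.2)‖ = Real.exp (-δ * z.2) := by
        rw [Complex.norm_exp]
        congr 1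
        simp
      rw [e1, e2, mul_one]
      apply mul_le_mul_of_nonneg_left _ (tri_nonneg _)
      apply mul_le_mul_of_nonneg_right _ (Real.exp_pos _).le
      rw [Real.norm_eq_abs]
      calc |HH f z.2 - A| ≤ |HH f z.2| + |A| := abs_sub _ _
        _ ≤ C + |A| := by
            rw [abs_of_nonneg (HH_nonneg hf _)]
            linarith [HH_le hf hC z.2]

include hGc

lemma identity_zero {l t : ℝ} (hl : 0 < l) :
    ∫ y : ℝ, (tri y : ℂ) * cexp (I * y * (l * t : ℝ)) * ((G (1 + I * l * y) - A) / (1 + I * l * y))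
      = ∫ u in Ioi (0 : ℝ), (((HH f u - A) * Kf (l * (t - u)) : ℝ) : ℂ) := by
  have hC0 := C_nonneg hf hC
  set gg : ℂ → ℂ := fun s => (G s - A) / s with hgg
  have hggc : ContinuousOn gg {s | 1 ≤ s.re} := by
    apply (hGc.sub continuousOn_const).div continuousOn_id
    intro s hs h
    have h' : s = 0 := h
    rw [h'] at hs
    simp at hs
    linarith
  -- bound on the compact set
  obtain ⟨M, hM⟩ : ∃ M : ℝ, ∀ s : ℂ, 1 ≤ s.re → s.re ≤ 2 → |s.im| ≤ l → ‖gg s‖ ≤ M := by
    have hcomp : IsCompact (Icc (1 : ℝ) 2 ×ℂ Icc (-l) l) := isCompact_Icc.reProdIm isCompact_Icc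
    have hsub : Icc (1 : ℝ) 2 ×ℂ Icc (-l) l ⊆ {s : ℂ | 1 ≤ s.re} := by
      intro s hs
      exact hs.1.1
    obtain ⟨M, hM⟩ := hcomp.exists_bound_of_continuousOn (hggc.mono hsub)
    refine ⟨M, fun s h1 h2 h3 => hM s ⟨⟨h1, h2⟩, ?_⟩⟩
    exact abs_le.mp h3
  have hM0 : 0 ≤ M := le_trans (norm_nonneg _) (hM 1 (by simp) (by simp) (by simp; exact hl.le))
  have hLHS : Tendsto (fun δ : ℝ => ∫ y : ℝ, (tri y : ℂ) * cexp (I * y * (l * t : ℝ)) *
      gg (1 + δ + I * l * y)) (𝓝[>] 0)
      (𝓝 (∫ y : ℝ, (tri y : ℂ) * cexp (I * y * (l * t : ℝ)) * gg (1 + I * l * y))) := by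
    apply tendsto_integral_filter_of_dominated_convergence (fun y => tri y * M)
    · filter_upwards [self_mem_nhdsWithin] with δ hδ
      have hδ0 : 0 < δ := hδ
      apply Continuous.aestronglyMeasurable
      have c1 : Continuous (fun y : ℝ => gg (1 + δ + I * l * y)) := by
        rw [← continuousOn_univ]
        apply hggc.comp (by fun_prop)
        intro y _
        simp
        exact hδ0.le
      have := tri_continuous
      exact ((continuous_ofReal.comp tri_continuous).mul (by fun_prop)).mul c1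
    · have : Iic (1 : ℝ) ∈ 𝓝[>] (0 : ℝ) := mem_nhdsWithin_of_mem_nhds (Iic_mem_nhds (by norm_num))
      filter_upwards [self_mem_nhdsWithin, this] with δ hδ hδ1
      have hδ0 : 0 < δ := hδ
      have hδ1' : δ ≤ 1 := hδ1
      filter_upwards with y
      by_cases hy : y ∈ Icc (-1 : ℝ) 1
      · rw [norm_mul, norm_mul, norm_real, Real.norm_of_nonneg (tri_nonneg _)]
        have e1 : ‖cexp (I * y * (l * t : ℝ))‖ = 1 := by
          rw [Complex.norm_exp]
          simp
        rw [e1, mul_one]
        apply mul_le_mul_of_nonneg_left _ (tri_nonneg _)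
        apply hM
        · simp
          exact hδ0.le
        · simp
          linarith
        · simp
          rw [abs_of_pos hl]
          have := abs_le.mpr hy
          nlinarith
      · rw [tri_eq_zero hy]
        simp
    · exact (tri_continuous.integrable_of_hasCompactSupport tri_support).mul_const M
    · filter_upwards with y
      apply Tendsto.const_mul
      have hmem : (1 + I * l * y : ℂ) ∈ {s : ℂ | 1 ≤ s.re} := by
        simp
      have h1 := hggc _ hmem
      have h2 : Tendsto (fun δ : ℝ => (1 + δ + I * l * y : ℂ)) (𝓝[>] 0) (𝓝[{s | 1 ≤ s.re}] (1 + I * l * y)) := by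
        apply tendsto_nhdsWithin_of_tendsto_nhds_of_eventually_within
        · have : Continuous (fun δ : ℝ => (1 + δ + I * l * y : ℂ)) := by fun_prop
          have h3 := this.tendsto 0
          simp only [ofReal_zero, add_zero] at h3
          exact h3.mono_left nhdsWithin_le_nhds
        · filter_upwards [self_mem_nhdsWithin] with δ hδ
          have hδ0 : 0 < δ := hδ
          simp
          exact hδ0.le
      exact h1.tendsto.comp h2
  have hRHS : Tendsto (fun δ : ℝ => ∫ u in Ioi (0 : ℝ), (((HH f u - A) * Real.exp (-δ * u) *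
      Kf (l * (t - u)) : ℝ) : ℂ)) (𝓝[>] 0)
      (𝓝 (∫ u in Ioi (0 : ℝ), (((HH f u - A) * Kf (l * (t - u)) : ℝ) : ℂ))) := by
    apply tendsto_integral_filter_of_dominated_convergence (fun u => (C + |A|) * Kf (l * (t - u)))
    · filter_upwards with δ
      apply Measurable.aestronglyMeasurable
      apply measurable_ofReal.comp
      have := Kf_meas
      have h1 : Measurable (fun u : ℝ => Kf (l * (t - u))) := Kf_meas.comp (by fun_prop)
      exact (((HH_meas).sub_const A).mul (by fun_prop)).mul h1
    · filter_upwards [self_mem_nhdsWithin] with δ hδ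
      have hδ0 : 0 < δ := hδ
      rw [ae_restrict_iff' measurableSet_Ioi]
      filter_upwards with u hu
      have hu0 : (0 : ℝ) < u := hu
      rw [norm_real, norm_mul, norm_mul, Real.norm_of_nonneg (Kf_nonneg _),
        Real.norm_of_nonneg (Real.exp_pos _).le, Real.norm_eq_abs]
      apply mul_le_mul_of_nonneg_right _ (Kf_nonneg _)
      have e1 : |HH f u - A| ≤ C + |A| := by
        calc |HH f u - A| ≤ |HH f u| + |A| := abs_sub _ _
        _ ≤ C + |A| := by
            rw [abs_of_nonneg (HH_nonneg hf _)]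
            linarith [HH_le hf hC u]
      have e2 : Real.exp (-δ * u) ≤ 1 := by
        rw [← Real.exp_zero]
        apply Real.exp_le_exp.mpr
        have := mul_pos hδ0 hu0
        linarith
      calc |HH f u - A| * Real.exp (-δ * u) ≤ (C + |A|) * 1 :=
            mul_le_mul e1 e2 (Real.exp_pos _).le (le_trans (abs_nonneg _) e1)
        _ = _ := mul_one _
    · apply Integrable.integrableOn
      apply Integrable.const_mul
      have h1 : Integrable (fun w : ℝ => Kf (l * w)) := Kf_integrable.comp_mul_left' hl.ne'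
      exact h1.comp_sub_left t
    · filter_upwards with u
      have hc : Continuous (fun δ : ℝ => (((HH f u - A) * Real.exp (-δ * u) * Kf (l * (t - u)) : ℝ) : ℂ)) := by
        fun_prop
      have := (hc.tendsto 0).mono_left (nhdsWithin_le_nhds (s := Ioi 0))
      simpa using this
  have heq : (fun δ : ℝ => ∫ y : ℝ, (tri y : ℂ) * cexp (I * y * (l * t : ℝ)) *
      gg (1 + δ + I * l * y)) =ᶠ[𝓝[>] 0] (fun δ : ℝ => ∫ u in Ioi (0 : ℝ), (((HH f u - A) *
      Real.exp (-δ * u) * Kf (l * (t - u)) : ℝ) : ℂ)) := by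
    filter_upwards [self_mem_nhdsWithin] with δ hδ
    exact identity_delta hf hC hG hδ
  exact tendsto_nhds_unique hLHS (hRHS.congr' heq.symm)

lemma rl_limit {l : ℝ} (hl : 0 < l) :
    Tendsto (fun t : ℝ => ∫ u in Ioi (0 : ℝ), (HH f u - A) * Kf (l * (t - u))) atTop (𝓝 0) := by
  have h1 := Real.tendsto_integral_exp_smul_cocompact
    (fun y : ℝ => (tri y : ℂ) * ((G (1 + I * l * y) - A) / (1 + I * l * y)))
  have h2 : Tendsto (fun t : ℝ => -(l * t) / (2 * Real.pi)) atTop (cocompact ℝ) := by
    have h3 : Tendsto (fun t : ℝ => -(l * t) / (2 * Real.pi)) atTop atBot := by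
      have : (fun t : ℝ => -(l * t) / (2 * Real.pi)) = fun t => (-(l / (2 * Real.pi))) * t := by
        funext t
        ring
      rw [this]
      apply Tendsto.const_mul_atTop_of_neg _ tendsto_id
      have : 0 < l / (2 * Real.pi) := by positivity
      linarith
    exact h3.mono_right atBot_le_cocompact
  have h4 := h1.comp h2
  have h5 : Tendsto (fun t : ℝ => ((∫ u in Ioi (0 : ℝ), (HH f u - A) * Kf (l * (t - u)) : ℝ) : ℂ))
      atTop (𝓝 0) := by
    refine h4.congr ?_
    intro t
    simp only [Function.comp]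
    rw [← integral_complex_ofReal, ← identity_zero hf hC hG hGc hl]
    congr 1
    funext y
    rw [Circle.smul_def, Real.fourierChar_apply, smul_eq_mul]
    have e1 : ((2 * Real.pi * -(y * (-(l * t) / (2 * Real.pi))) : ℝ) : ℂ) * I = I * y * (l * t : ℝ) := by
      have hpi := Real.pi_ne_zero
      have : (2 * Real.pi * -(y * (-(l * t) / (2 * Real.pi))) : ℝ) = y * (l * t) := by
        field_simp
      rw [this]
      push_cast
      ring
    rw [e1]
    ring
  have h6 := (continuous_re.tendsto 0).comp h5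
  rw [zero_re] at h6
  refine h6.congr ?_
  intro t
  simp only [Function.comp, ofReal_re]

end main

end Pool.Agent.Work.PNT70
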