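import Mathlib
import Pool.Agent.Work.PNT70.WI2

/-!
Wiener-Ikehara theorem, part 3: the Tauberian argument.
-/

namespace Pool.Agent.Work.PNT70

open Filter Topology MeasureTheory Set Complex

section main

variable {f : ℕ → ℝ} (hf : ∀ n, 0 ≤ f n) {C : ℝ}
    (hC : ∀ n : ℕ, ∑ k ∈ Finset.Icc 1 n, f k ≤ C * n) {A : ℝ} {G : ℂ → ℂ}
    (hG : ∀ s : ℂ, 1 < s.re → G s = LSeries (fun n => (f n : ℂ)) s - A / (s - 1))
    (hGc : ContinuousOn G {s | 1 ≤ s.re})

/-- change of variables -/
lemma subst_int (F : ℝ → ℝ) {l : ℝ} (hl : 0 < l) (t : ℝ) :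
    ∫ u, F (l * (t - u)) = (1 / l) * ∫ v, F v := by
  rw [integral_sub_left_eq_self (fun w => F (l * w)) volume t, Measure.integral_comp_mul_left F l,
    abs_of_pos (by positivity), smul_eq_mul, one_div]

include hf hC

lemma int_HH_Kf {l : ℝ} (t : ℝ) : Integrable (fun v => HH f (t - v / l) * Kf v) := by
  apply Integrable.bdd_mul (c := C) Kf_integrable
  · exact (HH_meas.comp (by fun_prop)).aestronglyMeasurable
  · filter_upwards with v
    rw [Real.norm_of_nonneg (HH_nonneg hf _)]
    exact HH_le hf hC _

include hG hGc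

lemma conv_limit {l : ℝ} (hl : 0 < l) :
    Tendsto (fun t : ℝ => ∫ v, HH f (t - v / l) * Kf v) atTop (𝓝 (A * κ₀)) := by
  have h1 := (rl_limit hf hC hG hGc hl).const_mul l
  rw [mul_zero] at h1
  have h2 : Tendsto (fun t : ℝ => ∫ v, (Iio (l * t)).indicator Kf v) atTop (𝓝 κ₀) := by
    unfold κ₀
    apply tendsto_integral_filter_of_dominated_convergence Kf
    · filter_upwards with t
      exact (Kf_meas.indicator measurableSet_Iio).aestronglyMeasurable
    · filter_upwards with t
      filter_upwards with v
      by_cases h : v ∈ Iio (l * t)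
      · rw [indicator_of_mem h, Real.norm_of_nonneg (Kf_nonneg v)]
      · rw [indicator_of_notMem h, norm_zero]
        exact Kf_nonneg v
    · exact Kf_integrable
    · filter_upwards with v
      have : ∀ᶠ t : ℝ in atTop, v < l * t := by
        filter_upwards [eventually_gt_atTop (v / l)] with t ht
        rw [div_lt_iff₀ hl] at ht
        linarith
      refine tendsto_const_nhds.congr' ?_
      filter_upwards [this] with t ht
      rw [indicator_of_mem]
      exact ht
  have h3 := h1.add (h2.const_mul A)
  rw [zero_add] at h3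
  refine h3.congr ?_
  intro t
  have e1 : ∫ u in Ioi (0 : ℝ), (HH f u - A) * Kf (l * (t - u))
      = ∫ u, ((Iio (l * t)).indicator (fun v => (HH f (t - v / l) - A) * Kf v)) (l * (t - u)) := by
    rw [← integral_indicator measurableSet_Ioi]
    congr 1
    funext u
    by_cases hu : 0 < u
    · rw [indicator_of_mem (show u ∈ Ioi (0 : ℝ) from hu), indicator_of_mem]
      · congr 3
        field_simp
        ring
      · show l * (t - u) < l * t
        have := mul_pos hl hu
        linarith
    · rw [indicator_of_notMem (show u ∉ Ioi (0 : ℝ) from hu), indicator_of_notMem]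
      intro h
      have h' : l * (t - u) < l * t := h
      have := mul_nonneg hl.le (show 0 ≤ -u by linarith)
      linarith
  rw [e1, subst_int _ hl, ← mul_assoc, mul_one_div_cancel hl.ne', one_mul, ← integral_const_mul,
    ← integral_add]
  · apply integral_congr_ae
    have hne : ∀ᵐ v : ℝ, v ≠ l * t := by
      rw [ae_iff]
      simp
    filter_upwards [hne] with v hv
    by_cases h : v ∈ Iio (l * t)
    · rw [indicator_of_mem h, indicator_of_mem h]
      ring
    · rw [indicator_of_notMem h, indicator_of_notMem h]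
      have h1 : l * t < v := by
        have : ¬ v < l * t := h
        exact lt_of_le_of_ne (not_lt.mp this) (Ne.symm hv)
      have h2 : t - v / l < 0 := by
        rw [sub_neg, lt_div_iff₀ hl]
        linarith
      rw [HH_neg h2]
      ring
  · apply Integrable.indicator _ measurableSet_Iio
    have e2 : (fun v => (HH f (t - v / l) - A) * Kf v) = fun v => HH f (t - v / l) * Kf v - A * Kf v := by
      funext v
      ring
    rw [e2]
    exact (int_HH_Kf hf hC t).sub (Kf_integrable.const_mul A)
  · exact (Kf_integrable.indicator measurableSet_Iio).const_mul A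

omit hf hC hG hGc in
/-- mass of the kernel in a bounded interval -/
lemma mass_limit : Tendsto (fun b : ℝ => ∫ v in Icc (-b) b, Kf v) atTop (𝓝 κ₀) := by
  unfold κ₀
  have h : (fun b : ℝ => ∫ v in Icc (-b) b, Kf v) = fun b : ℝ => ∫ v, (Icc (-b) b).indicator Kf v := by
    funext b
    rw [integral_indicator measurableSet_Icc]
  rw [h]
  apply tendsto_integral_filter_of_dominated_convergence Kf
  · filter_upwards with t
    exact (Kf_meas.indicator measurableSet_Icc).aestronglyMeasurable
  · filter_upwards with t
    filter_upwards with v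
    by_cases h : v ∈ Icc (-t) t
    · rw [indicator_of_mem h, Real.norm_of_nonneg (Kf_nonneg v)]
    · rw [indicator_of_notMem h, norm_zero]
      exact Kf_nonneg v
  · exact Kf_integrable
  · filter_upwards with v
    refine tendsto_const_nhds.congr' ?_
    filter_upwards [eventually_ge_atTop |v|] with t ht
    rw [indicator_of_mem]
    exact abs_le.mp ht

omit hG hGc in
lemma upper_ineq {l b t : ℝ} (hl : 0 < l) (hb : 0 ≤ b) :
    HH f t * Real.exp (-(2 * b / l)) * (∫ v in Icc (-b) b, Kf v) ≤
      ∫ v, HH f ((t + b / l) - v / l) * Kf v := by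
  have hi := int_HH_Kf hf hC (l := l) (t + b / l)
  calc HH f t * Real.exp (-(2 * b / l)) * (∫ v in Icc (-b) b, Kf v)
      = ∫ v in Icc (-b) b, HH f t * Real.exp (-(2 * b / l)) * Kf v := by
        rw [integral_const_mul]
    _ ≤ ∫ v in Icc (-b) b, HH f ((t + b / l) - v / l) * Kf v := by
        apply setIntegral_mono_on (Kf_integrable.integrableOn.const_mul _) hi.integrableOn measurableSet_Icc
        intro v hv
        apply mul_le_mul_of_nonneg_right _ (Kf_nonneg v)
        have h1 : t ≤ (t + b / l) - v / l := by
          have : v / l ≤ b / l := div_le_div_of_nonneg_right hv.2 hl.le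
          linarith
        have h2 := HH_comp hf h1
        have h3 : ((t + b / l) - v / l) - t ≤ 2 * b / l := by
          have : -b / l ≤ v / l := div_le_div_of_nonneg_right hv.1 hl.le
          have e : 2 * b / l = b / l - (-b / l) := by ring
          linarith
        have h4 : HH f t ≤ HH f ((t + b / l) - v / l) * Real.exp (2 * b / l) :=
          le_trans h2 (mul_le_mul_of_nonneg_left (Real.exp_le_exp.mpr h3) (HH_nonneg hf _))
        calc HH f t * Real.exp (-(2 * b / l))
            ≤ HH f ((t + b / l) - v / l) * Real.exp (2 * b / l) * Real.exp (-(2 * b / l)) :=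
              mul_le_mul_of_nonneg_right h4 (Real.exp_pos _).le
          _ = _ := by
              rw [mul_assoc, ← Real.exp_add]
              simp
    _ ≤ ∫ v, HH f ((t + b / l) - v / l) * Kf v := by
        apply setIntegral_le_integral hi
        filter_upwards with v
        exact mul_nonneg (HH_nonneg hf _) (Kf_nonneg v)

omit hG hGc in
lemma lower_ineq {l b t : ℝ} (hl : 0 < l) (hb : 0 ≤ b) :
    ∫ v, HH f ((t - b / l) - v / l) * Kf v ≤
      HH f t * Real.exp (2 * b / l) * κ₀ + C * (κ₀ - ∫ v in Icc (-b) b, Kf v) := by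
  have hC0 := C_nonneg hf hC
  have hi := int_HH_Kf hf hC (l := l) (t - b / l)
  rw [← integral_add_compl (measurableSet_Icc (a := -b) (b := b)) hi]
  apply add_le_add
  · calc ∫ v in Icc (-b) b, HH f ((t - b / l) - v / l) * Kf v
        ≤ ∫ v in Icc (-b) b, HH f t * Real.exp (2 * b / l) * Kf v := by
          apply setIntegral_mono_on hi.integrableOn (Kf_integrable.integrableOn.const_mul _) measurableSet_Icc
          intro v hv
          apply mul_le_mul_of_nonneg_right _ (Kf_nonneg v)
          have hv1 : -b / l ≤ v / l := div_le_div_of_nonneg_right hv.1 hl.le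
          have hv2 : v / l ≤ b / l := div_le_div_of_nonneg_right hv.2 hl.le
          have e : -b / l = -(b / l) := by ring
          have h1 : (t - b / l) - v / l ≤ t := by linarith
          have h2 := HH_comp hf h1
          have h3 : t - ((t - b / l) - v / l) ≤ 2 * b / l := by
            have e' : 2 * b / l = b / l + b / l := by ring
            linarith
          exact le_trans h2 (mul_le_mul_of_nonneg_left (Real.exp_le_exp.mpr h3) (HH_nonneg hf _))
      _ = HH f t * Real.exp (2 * b / l) * ∫ v in Icc (-b) b, Kf v := by rw [integral_const_mul]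
      _ ≤ _ := by
          apply mul_le_mul_of_nonneg_left _ (mul_nonneg (HH_nonneg hf _) (Real.exp_pos _).le)
          exact setIntegral_le_integral Kf_integrable (by filter_upwards with v using Kf_nonneg v)
  · calc ∫ v in (Icc (-b) b)ᶜ, HH f ((t - b / l) - v / l) * Kf v
        ≤ ∫ v in (Icc (-b) b)ᶜ, C * Kf v := by
          apply setIntegral_mono_on hi.integrableOn (Kf_integrable.integrableOn.const_mul _)
            measurableSet_Icc.compl
          intro v _
          exact mul_le_mul_of_nonneg_right (HH_le hf hC _) (Kf_nonneg v)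
      _ = C * ∫ v in (Icc (-b) b)ᶜ, Kf v := by rw [integral_const_mul]
      _ = _ := by
          unfold κ₀
          rw [← integral_add_compl (measurableSet_Icc (a := -b) (b := b)) Kf_integrable]
          ring

/-- the Tauberian conclusion in logarithmic form -/
theorem HH_limit (hA : 0 ≤ A) : Tendsto (HH f) atTop (𝓝 A) := by
  have hC0 := C_nonneg hf hC
  have hκ := κ₀_pos
  rw [tendsto_order]
  constructor
  · -- lower bound
    intro a ha
    -- choose b then l
    have h1 : Tendsto (fun b : ℝ => A * κ₀ - C * (κ₀ - ∫ v in Icc (-b) b, Kf v)) atTop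
        (𝓝 (A * κ₀ - C * (κ₀ - κ₀))) :=
      tendsto_const_nhds.sub ((tendsto_const_nhds.sub mass_limit).const_mul C)
    rw [sub_self, mul_zero, sub_zero] at h1
    have h2 : a * κ₀ < A * κ₀ := mul_lt_mul_of_pos_right ha hκ
    obtain ⟨b, hb1, hb2⟩ := ((h1.eventually_const_lt h2).and (eventually_ge_atTop 0)).exists
    have h3 : Tendsto (fun l : ℝ => a * Real.exp (2 * b / l) * κ₀) atTop (𝓝 (a * Real.exp 0 * κ₀)) := by
      have : Tendsto (fun l : ℝ => 2 * b / l) atTop (𝓝 0) := tendsto_const_nhds.div_atTop tendsto_id
      exact (((Real.continuous_exp.tendsto 0).comp this).const_mul a).mul_const κ₀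
    rw [Real.exp_zero, mul_one] at h3
    obtain ⟨l, hl1, hl2⟩ := ((h3.eventually_lt_const hb1).and (eventually_gt_atTop 0)).exists
    have h4 := conv_limit hf hC hG hGc hl2
    have h5 : Tendsto (fun t : ℝ => t - b / l) atTop atTop := tendsto_atTop_add_const_right _ _ tendsto_id
    have h6 := h4.comp h5
    have h7 : a * Real.exp (2 * b / l) * κ₀ + C * (κ₀ - ∫ v in Icc (-b) b, Kf v) < A * κ₀ := by linarith
    filter_upwards [h6.eventually_const_lt h7] with t ht
    simp only [Function.comp] at ht
    have h8 := lower_ineq hf hC (t := t) hl2 hb2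
    have h9 : a * Real.exp (2 * b / l) * κ₀ < HH f t * Real.exp (2 * b / l) * κ₀ := by linarith
    have h10 := lt_of_mul_lt_mul_right h9 hκ.le
    exact lt_of_mul_lt_mul_right h10 (Real.exp_pos _).le
  · -- upper bound
    intro a ha
    have ha0 : 0 < a := lt_of_le_of_lt hA ha
    have h1 : Tendsto (fun b : ℝ => a * ∫ v in Icc (-b) b, Kf v) atTop (𝓝 (a * κ₀)) :=
      mass_limit.const_mul a
    have h2 : A * κ₀ < a * κ₀ := mul_lt_mul_of_pos_right ha hκ
    obtain ⟨b, hb1, hb2⟩ := ((h1.eventually_const_lt h2).and (eventually_ge_atTop 0)).exists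
    have h3 : Tendsto (fun l : ℝ => a * Real.exp (-(2 * b / l)) * ∫ v in Icc (-b) b, Kf v) atTop
        (𝓝 (a * Real.exp (-0) * ∫ v in Icc (-b) b, Kf v)) := by
      have : Tendsto (fun l : ℝ => 2 * b / l) atTop (𝓝 0) := tendsto_const_nhds.div_atTop tendsto_id
      exact (((Real.continuous_exp.tendsto _).comp this.neg).const_mul a).mul_const _
    rw [neg_zero, Real.exp_zero, mul_one] at h3
    obtain ⟨l, hl1, hl2⟩ := ((h3.eventually_const_lt hb1).and (eventually_gt_atTop 0)).exists
    have h4 := conv_limit hf hC hG hGc hl2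
    have h5 : Tendsto (fun t : ℝ => t + b / l) atTop atTop := tendsto_atTop_add_const_right _ _ tendsto_id
    have h6 := h4.comp h5
    filter_upwards [h6.eventually_lt_const hl1] with t ht
    simp only [Function.comp] at ht
    have h8 := upper_ineq hf hC (t := t) hl2 hb2
    have h9 : HH f t * Real.exp (-(2 * b / l)) * (∫ v in Icc (-b) b, Kf v)
        < a * Real.exp (-(2 * b / l)) * ∫ v in Icc (-b) b, Kf v := lt_of_le_of_lt h8 ht
    have hm : 0 ≤ ∫ v in Icc (-b) b, Kf v := integral_nonneg fun v => Kf_nonneg v
    have h10 := lt_of_mul_lt_mul_right h9 hm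
    exact lt_of_mul_lt_mul_right h10 (Real.exp_pos _).le

/-- **Wiener-Ikehara theorem** (with an a priori Chebyshev bound). -/
theorem wiener_ikehara (hA : 0 ≤ A) :
    Tendsto (fun x : ℝ => (∑ k ∈ Finset.Icc 1 ⌊x⌋₊, f k) / x) atTop (𝓝 A) := by
  have h := (HH_limit hf hC hG hGc hA).comp Real.tendsto_log_atTop
  refine h.congr' ?_
  filter_upwards [eventually_gt_atTop 0] with x hx
  simp only [Function.comp, HH, summ]
  rw [Real.exp_log hx, Real.exp_neg, Real.exp_log hx]
  rfl

end main

end Pool.Agent.Work.PNT70
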