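import Mathlib
import Pool.Agent.Work.PNT70.WI3

/-!
The prime number theorem, also in arithmetic progressions, from the Wiener-Ikehara theorem.
-/

namespace Pool.Agent.Work.PNT70

open Filter Topology Chebyshev ArithmeticFunction

/-- **Prime number theorem in arithmetic progressions**, for the von Mangoldt function:
`∑_{n ≤ x, n ≡ a mod q} Λ(n) ~ x / φ(q)`. -/
theorem pnt_ap {q : ℕ} [NeZero q] {a : ZMod q} (ha : IsUnit a) :
    Tendsto (fun x : ℝ => (∑ k ∈ Finset.Icc 1 ⌊x⌋₊, vonMangoldt.residueClass a k) / x) atTop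
      (𝓝 ((q.totient : ℝ)⁻¹)) := by
  refine wiener_ikehara (f := vonMangoldt.residueClass a) (C := Real.log 4 + 4)
    (G := vonMangoldt.LFunctionResidueClassAux a) (vonMangoldt.residueClass_nonneg a) ?_ ?_ ?_ ?_
  · intro n
    have h1 : ∑ k ∈ Finset.Icc 1 n, vonMangoldt.residueClass a k ≤ ψ (n : ℝ) := by
      rw [psi_eq_sum_Icc]
      calc ∑ k ∈ Finset.Icc 1 n, vonMangoldt.residueClass a k ≤ ∑ k ∈ Finset.Icc 1 n, vonMangoldt k :=
            Finset.sum_le_sum fun k _ => vonMangoldt.residueClass_le a k
        _ ≤ _ := by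
            apply Finset.sum_le_sum_of_subset_of_nonneg
            · intro k hk
              rw [Finset.mem_Icc] at hk
              simp
              omega
            · intro k _ _
              exact vonMangoldt_nonneg
    exact le_trans h1 (psi_le_const_mul_self (Nat.cast_nonneg n))
  · intro s hs
    rw [vonMangoldt.eqOn_LFunctionResidueClassAux ha hs]
    push_cast
    rfl
  · exact vonMangoldt.continuousOn_LFunctionResidueClassAux a
  · positivity

/-- **Prime number theorem**: `ψ(x) ~ x`. -/
theorem psi_tendsto : Tendsto (fun x : ℝ => ψ x / x) atTop (𝓝 1) := by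
  have h := pnt_ap (q := 1) (a := 1) isUnit_one
  simp only [Nat.totient_one, Nat.cast_one, inv_one] at h
  refine h.congr ?_
  intro x
  congr 1
  rw [psi_eq_sum_Icc]
  symm
  rw [← Finset.sum_subset (s₁ := Finset.Icc 1 ⌊x⌋₊)]
  · apply Finset.sum_congr rfl
    intro n _
    simp only [vonMangoldt.residueClass, Set.indicator_apply, Set.mem_ofPred_eq]
    rw [if_pos (Subsingleton.elim _ _)]
  · intro k hk
    rw [Finset.mem_Icc] at hk
    simp
    omega
  · intro k hk hk2
    rw [Finset.mem_Icc] at hk2
    have : k = 0 := by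
      by_contra h0
      apply hk2
      simp at hk
      omega
    rw [this]
    simp

theorem theta_tendsto : Tendsto (fun x : ℝ => θ x / x) atTop (𝓝 1) := by
  obtain ⟨C, hC⟩ := psi_sub_theta_le_mul_sqrt
  have h1 : Tendsto (fun x : ℝ => (ψ x - θ x) / x) atTop (𝓝 0) := by
    have h2 : Tendsto (fun x : ℝ => C * (Real.sqrt x)⁻¹) atTop (𝓝 (C * 0)) :=
      (tendsto_inv_atTop_zero.comp Real.tendsto_sqrt_atTop).const_mul C
    rw [mul_zero] at h2
    apply tendsto_of_tendsto_of_tendsto_of_le_of_le' tendsto_const_nhds h2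
    · filter_upwards [eventually_gt_atTop 0] with x hx
      apply div_nonneg _ hx.le
      linarith [theta_le_psi x]
    · filter_upwards [eventually_gt_atTop 0] with x hx
      rw [div_le_iff₀ hx]
      refine le_trans (hC x) (le_of_eq ?_)
      have hs : 0 < Real.sqrt x := Real.sqrt_pos.mpr hx
      have hs2 : x = Real.sqrt x * Real.sqrt x := (Real.mul_self_sqrt hx.le).symm
      nth_rewrite 3 [hs2]
      field_simp
  have h3 := psi_tendsto.sub h1
  rw [sub_zero] at h3
  refine h3.congr ?_
  intro x
  ring

/-- `π(x) ~ x / log x`. -/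
theorem primeCounting_tendsto :
    Tendsto (fun x : ℝ => (Nat.primeCounting ⌊x⌋₊ : ℝ) / (x / Real.log x)) atTop (𝓝 1) := by
  have h1 := primeCounting_sub_theta_div_log_isBigO
  have h2 : Tendsto (fun x : ℝ => ((Nat.primeCounting ⌊x⌋₊ : ℝ) - θ x / Real.log x) / (x / Real.log x))
      atTop (𝓝 0) := by
    rw [← Asymptotics.isLittleO_iff_tendsto']
    · refine h1.trans_isLittleO ?_
      rw [Asymptotics.isLittleO_iff_tendsto']
      · have h4 : Tendsto (fun x : ℝ => (Real.log x)⁻¹) atTop (𝓝 0) :=
          tendsto_inv_atTop_zero.comp Real.tendsto_log_atTop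
        refine h4.congr' ?_
        filter_upwards [eventually_gt_atTop 1] with x hx
        have := Real.log_pos hx
        field_simp
      · filter_upwards [eventually_gt_atTop 1] with x hx h
        have := Real.log_pos hx
        exfalso
        have : x / Real.log x ≠ 0 := by positivity
        exact this h
    · filter_upwards [eventually_gt_atTop 1] with x hx h
      have := Real.log_pos hx
      exfalso
      have : x / Real.log x ≠ 0 := by positivity
      exact this h
  have h3 := h2.add theta_tendsto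
  rw [zero_add] at h3
  refine h3.congr' ?_
  filter_upwards [eventually_gt_atTop 1] with x hx
  have := Real.log_pos hx
  field_simp
  ring

/-- Short intervals: `θ(x) - θ((1-ε)x) ~ ε x`. -/
theorem theta_sub_tendsto {ε : ℝ} (hε1 : ε < 1) :
    Tendsto (fun x : ℝ => (θ x - θ ((1 - ε) * x)) / x) atTop (𝓝 ε) := by
  have hpos : 0 < 1 - ε := by linarith
  have h1 : Tendsto (fun x : ℝ => (1 - ε) * x) atTop atTop := tendsto_id.const_mul_atTop hpos
  have h2 := (theta_tendsto.comp h1).const_mul (1 - ε)
  have h3 := theta_tendsto.sub h2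
  have e : 1 - (1 - ε) * 1 = ε := by ring
  rw [e] at h3
  refine h3.congr' ?_
  filter_upwards [eventually_gt_atTop 0] with x hx
  simp only [Function.comp]
  field_simp

/-- For every `ε > 0`, every large `x` has a prime in `((1-ε)x, x]`. -/
theorem exists_prime_short {ε : ℝ} (hε : 0 < ε) :
    ∀ᶠ x : ℝ in atTop, ∃ p : ℕ, p.Prime ∧ (1 - ε) * x < p ∧ (p : ℝ) ≤ x := by
  wlog hε1 : ε < 1 generalizing ε
  · have h := this (ε := 1 / 2) (by norm_num) (by norm_num)
    filter_upwards [h, eventually_gt_atTop 0] with x hx hx0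
    obtain ⟨p, hp, h1, h2⟩ := hx
    refine ⟨p, hp, ?_, h2⟩
    have : 1 ≤ ε := not_lt.mp hε1
    nlinarith
  have h := theta_sub_tendsto hε1
  filter_upwards [h.eventually_const_lt hε, eventually_gt_atTop 0] with x hx hx0
  by_contra hno
  push Not at hno
  have h1 : 0 < θ x - θ ((1 - ε) * x) := by
    rw [div_pos_iff_of_pos_right hx0] at hx
    exact hx
  have h2 : θ x = θ ((1 - ε) * x) := by
    unfold Chebyshev.theta
    symm
    apply Finset.sum_subset
    · intro n hn
      rw [Finset.mem_filter, Finset.mem_Ioc] at hn ⊢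
      refine ⟨⟨hn.1.1, le_trans hn.1.2 (Nat.floor_mono ?_)⟩, hn.2⟩
      nlinarith
    · intro n hn hn2
      exfalso
      rw [Finset.mem_filter, Finset.mem_Ioc] at hn hn2
      have hnx : (n : ℝ) ≤ x := by
        rw [← Nat.le_floor_iff hx0.le]
        exact hn.1.2
      have h3 : (n : ℝ) ≤ (1 - ε) * x := by
        by_contra h4
        have := hno n hn.2 (not_le.mp h4)
        linarith
      apply hn2
      exact ⟨⟨hn.1.1, Nat.le_floor h3⟩, hn.2⟩
  linarith

end Pool.Agent.Work.PNT70
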